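import Pool.Agent.helper25.IR.T1Fin
import Pool.Agent.helper25.HH.SpecE

/-!
# MP_07c750, projects T1 and HH: the final theorem from `HAL_stmt`, `HHM_stmt`, `MEA_stmt` and `FN2_stmt`
-/

set_option autoImplicit false

open scoped MatrixGroups ContDiff Topology UpperHalfPlane ENNReal NNReal
open UpperHalfPlane MeasureTheory Filter Set

namespace Pool.Agent.HH

open Pool.Agent.RS
open Pool.Agent.MS (bq BB BA SF pf)
open Pool.Agent.EN (XG MG mkX mkM fl pr)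
open Pool.Agent.ER (Low)
open Pool.Agent.IR (loc MP core core_gp core_lift core_mean)

/-- the uniform part (copied from `IR.t1_final`) -/
theorem fin_unif (Γ : Subgroup SL(2, ℝ)) (F : Set ℍ) (μ : Measure (XG Γ)) (ν : Measure (MG Γ)) (hΓ : QU.SurfaceGroup Γ) (hμ : IsProbabilityMeasure μ) (hfl : ∀ t, μ.map (fl Γ t) = μ)
    (HU : ∀ m : ℝ, 0 ≤ m → m ≤ 1 → (∀ a : ℝ, 0 < a → MS.CV Γ μ m a) →
        ENNReal.ofReal m • ((volume F)⁻¹ • ((volume : Measure ℍ).restrict F).map (mkM Γ)) ≤ ν) (A : Set (MG Γ)) (hA : MeasurableSet A) :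
    μ (Low Γ μ 0) * (volume (F ∩ {z : ℍ | mkM Γ z ∈ A}) / volume F) ≤ ν A := by
  have hCV : ∀ a : ℝ, 0 < a → MS.CV Γ μ (μ.real (Low Γ μ 0)) a := by
    intro a ha δ hδ
    obtain ⟨n0, hn0'⟩ := ER.A_EZR Γ μ 0 (Low Γ μ 0) hΓ hμ hfl le_rfl (ER.A_LDE Γ μ 0 hΓ hμ hfl le_rfl) a ha δ hδ
    refine ⟨n0, fun n hn => ?_⟩
    obtain ⟨B, hB1, hB2⟩ := hn0' n hn
    rw [zero_add] at hB1
    exact ⟨B, hB1, hB2⟩
  have h4 := HU (μ.real (Low Γ μ 0)) measureReal_nonneg measureReal_le_one hCV A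
  have hmm : Measurable (mkM Γ) := (EN.A_XFL Γ).2.2.2.2.2.1.measurable
  rw [Measure.smul_apply, Measure.smul_apply, Measure.map_apply hmm hA,
    Measure.restrict_apply (hmm hA), ofReal_measureReal (measure_ne_top μ _), smul_eq_mul, smul_eq_mul] at h4
  rw [ENNReal.div_eq_inv_mul, Set.inter_comm]
  exact h4

/-- **THE FINAL THEOREM (T1 and HH)** -/
theorem final (hHAL : HAL_stmt) (hHHM : HHM_stmt) (hMEA : MEA_stmt) (hFN2 : T1.FN2_stmt) : ∃ c ρ0 : ℝ, 0 < c ∧ 0 < ρ0 ∧ ∀ (Γ : Subgroup SL(2, ℝ)) (F : Set ℍ) (r : ℕ → ℝ) (φ : ℕ → ℍ → ℂ) (ν : Measure (MG Γ)), QU.SurfaceGroup Γ →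
    IsFundamentalDomain Γ F (volume : Measure ℍ) → Tendsto r atTop atTop → (∀ k, Eig Γ (r k) (φ k)) → (∀ k, ∫ z in F, ‖φ k z‖ ^ 2 = 1) → IsFiniteMeasure ν →
    (∀ V : MG Γ → ℝ, Continuous V → Tendsto (fun k => ∫ z in F, V (mkM Γ z) * ‖φ k z‖ ^ 2) atTop (𝓝 (∫ x, V x ∂ν))) →
    ∃ μ : Measure (XG Γ), IsProbabilityMeasure μ ∧ (∀ t, μ.map (fl Γ t) = μ) ∧ μ.map (pr Γ) = ν ∧ (∀ a, MeasurableSet (Low Γ μ a)) ∧ Measurable (loc Γ μ) ∧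
      1 / 2 + c ≤ ∫ x, loc Γ μ x ∂μ ∧ (∀ a : ℝ, a < 1 / 2 + 1 / 5000000 → μ (Low Γ μ a) ≤ 1 / 2) ∧ μ (Low Γ μ ρ0) ≤ ENNReal.ofReal (1 / 2 - c) ∧
      (∀ a : ℝ, 1 / 2 ≤ a → a < 1 → μ (Low Γ μ a) + μ (Low Γ μ ((1 - a) * (1 + (2 * a - 1) / 200))) ≤ 1) ∧
      (∀ A : Set (MG Γ), MeasurableSet A → μ (Low Γ μ 0) * (volume (F ∩ {z : ℍ | mkM Γ z ∈ A}) / volume F) ≤ ν A) ∧
      1 / 2 + 1 / 200 * ∫ x, max 0 ((2 * loc Γ μ x - 1) * (1 - loc Γ μ x)) ∂μ ≤ ∫ x, loc Γ μ x ∂μ := by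
  obtain ⟨-, -, -, -, -, hex⟩ := MS.A_STB
  obtain ⟨β, hβ⟩ := (hex (1 / 4) (by norm_num)).2
  obtain ⟨α, hα'⟩ := (hex (1 / 8) (by norm_num)).1
  obtain ⟨c0, ρ0, hc0, hρ0, HFN⟩ := hFN2 β α hβ hα'
  -- constants for the mean
  obtain ⟨c1, hc1, hMM⟩ := hMEA (min c0 (1 / 2)) (min ρ0 (1 / 2)) (1 / 10000000) (lt_min hc0 (by norm_num)) (min_le_right _ _) (lt_min hρ0 (by norm_num)) (min_le_right _ _) (by norm_num)
  refine ⟨min c0 c1, ρ0, lt_min hc0 hc1, hρ0, ?_⟩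
  intro Γ F r φ ν hΓ hF hr hφ hn hfin hν
  obtain ⟨F₀, hF₀, hn0, μ, hμ, hfl, hmap, hMP, HU⟩ := core_lift β α hβ hα' Γ F r φ ν hΓ hF hr hφ hn hfin hν
  have H2 : ∀ a : ℝ, 1 / 2 ≤ a → a < 1 → μ (Low Γ μ a) + μ (Low Γ μ ((1 - a) * (1 + (2 * a - 1) / 200))) ≤ 1 :=
    fun a ha ha1 => core Γ F₀ β α r φ μ hΓ hF₀ hβ hα' hr hφ hn0 hμ hfl hMP a ha ha1
  obtain ⟨hm, h01, hle, hmean⟩ := core_mean Γ μ hΓ hμ H2
  have h5 : μ.real (Low Γ μ ρ0) ≤ 1 / 2 - c0 := HFN Γ F₀ r φ μ hΓ hF₀ hr hφ hn0 hμ hfl hMP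
  obtain ⟨K, hK, hGP⟩ := core_gp Γ F₀ β α hΓ hF₀ hβ hα'
  have hG := hGP r φ μ hr hφ hn0 hμ hMP
  have hH : ∀ ρ : ℝ, 0 ≤ ρ → ρ < 1 / 2 + 1 / 5000000 → μ.real (Low Γ μ ρ) ≤ 1 / 2 := fun ρ h1 h2 => hHHM hHAL Γ μ K ρ hΓ hμ hfl hK hG h1 (by rw [eta]; exact h2)
  have hhalf : (1 / 2 : ENNReal) = ENNReal.ofReal (1 / 2) := by
    rw [ENNReal.ofReal_div_of_pos (by norm_num), ENNReal.ofReal_one, ENNReal.ofReal_ofNat]
  refine ⟨μ, hμ, hfl, hmap, fun a => ER.Low_meas Γ hΓ μ hμ a, hm, ?_, ?_, ?_, H2, fin_unif Γ F μ ν hΓ hμ hfl HU, hmean⟩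
  · have h6 : μ.real {x | loc Γ μ x ≤ min ρ0 (1 / 2)} ≤ 1 / 2 - min c0 (1 / 2) := by
      rw [hle _ (le_min hρ0.le (by norm_num)) (lt_of_le_of_lt (min_le_right _ _) (by norm_num))]
      have h7 : μ.real (Low Γ μ (min ρ0 (1 / 2))) ≤ μ.real (Low Γ μ ρ0) := measureReal_mono (IR.all_mono Γ μ _ _ (min_le_left _ _))
      have h8 := min_le_left c0 (1 / 2 : ℝ)
      linarith
    have h7 : μ.real {x | loc Γ μ x ≤ 1 / 2 + 1 / 10000000} ≤ 1 / 2 := by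
      rw [hle _ (by norm_num) (by norm_num)]
      exact hH _ (by norm_num) (by norm_num)
    have h8 := hMM (XG Γ) μ (loc Γ μ) hμ hm h01 h6 h7 hmean
    exact (add_le_add_right (min_le_right c0 c1) (1 / 2)).trans h8
  · intro a ha
    have h6 : Low Γ μ a ⊆ Low Γ μ (max a 0) := IR.all_mono Γ μ _ _ (le_max_left _ _)
    refine (measure_mono h6).trans ?_
    rw [hhalf, ← ofReal_measureReal (measure_ne_top μ _)]
    exact ENNReal.ofReal_le_ofReal (hH _ (le_max_right _ _) (max_lt ha (by norm_num)))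
  · rw [← ofReal_measureReal (measure_ne_top μ _)]
    exact ENNReal.ofReal_le_ofReal (h5.trans (by have := min_le_left c0 c1; linarith))

end Pool.Agent.HH
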