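import Pool.Agent.helper17.HH.SpecF
import Pool.Agent.helper34.IR.FWD
import Pool.Agent.helper9.IR.BK2

/-!
# MP_07c750, project HH, row HFX: the forward function with all windows (adapted from helper25/HH/HFW.lean)
-/

open scoped MatrixGroups ContDiff Topology UpperHalfPlane ComplexConjugate
open UpperHalfPlane MeasureTheory Filter Set

set_option autoImplicit false

namespace Pool.Agent.HH

open Pool.Agent.RS
open Pool.Agent.MS (bq BB BA SF pf)
open Pool.Agent.HV (FW)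
open Pool.Agent.EN (XG MG mkX mkM fl pr)
open Pool.Agent.ER (Low LowJ)
open Pool.Agent.IR

noncomputable section

/-- all windows -/
lemma HFX_list : ∃ l : List (ℕ × ℕ), (∀ w ∈ l, w.1 < w.2 ∧ w.2 ≤ 12000) ∧ (4000, 12000) ∈ l ∧ ∀ i j : ℕ, i < j → j ≤ 4000 → (i, j) ∈ l := by
  classical
  refine ⟨(4000, 12000) :: ((Finset.range 4001 ×ˢ Finset.range 4001).filter (fun w : ℕ × ℕ => w.1 < w.2)).toList, ?_, List.mem_cons_self, ?_⟩
  · intro w hw
    rcases List.mem_cons.1 hw with rfl | h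
    · exact ⟨by norm_num, le_rfl⟩
    · rw [Finset.mem_toList, Finset.mem_filter, Finset.mem_product, Finset.mem_range, Finset.mem_range] at h
      exact ⟨h.2, by omega⟩
  · intro i j hij hj
    refine List.mem_cons_of_mem _ ?_
    rw [Finset.mem_toList, Finset.mem_filter, Finset.mem_product, Finset.mem_range, Finset.mem_range]
    exact ⟨⟨by omega, by omega⟩, hij⟩

theorem HFX_proof (hBXM : MS.BXM_stmt) (hSFP : SFP_stmt) (hCOV : COV_stmt) (hFLI : FLI_stmt) (hYVO : YVO_stmt) (hYCW : YCW_stmt) (hXFL : EN.XFL_stmt) : HFX_stmt := by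
  intro Γ μ ρ hΓ hμ hinv hρ
  obtain ⟨a0, ha0, ha0', hB⟩ := hBXM Γ hΓ
  obtain ⟨Cy, hCy, hY⟩ := hYVO Γ hΓ
  obtain ⟨Cw, hCw, hW⟩ := hYCW Γ hΓ
  obtain ⟨l, hl1, hl2, hl3⟩ := HFX_list
  refine ⟨min a0 (1 / 1600), lt_min ha0 (by norm_num), fun a ha haa => ?_⟩
  obtain ⟨C, hC, hBX⟩ := hB a ha (haa.trans (min_le_left _ _))
  have h16 : 16 * a ≤ 1 / 100 := by
    have h1 := haa.trans (min_le_right _ _)
    linarith
  obtain ⟨N, hN⟩ : ∃ N : ℝ, N = (l.length : ℝ) + 1 := ⟨_, rfl⟩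
  have hN1 : 1 ≤ N := by
    rw [hN]
    have : (0 : ℝ) ≤ l.length := Nat.cast_nonneg _
    linarith
  refine ⟨N * C + Cy + Cw + 1, by
    have : 0 ≤ N * C := by positivity
    linarith, fun η δ hη hδ => ?_⟩
  have hN0 : 0 < N := by linarith
  obtain ⟨n0, hn0⟩ := hCOV Γ μ ρ hΓ hμ hinv hρ a η (δ / N) ha hη (by positivity)
  refine ⟨n0, fun m hm => ?_⟩
  have hm0 : (0 : ℝ) ≤ m := Nat.cast_nonneg m
  -- one window
  have W : ∀ w : ℕ × ℕ, w.1 < w.2 → w.2 ≤ 12000 → ∃ Φ Φa Φn Φl : SL(2, ℝ) → ℝ, SF Γ Φ Φa Φn Φl ∧ (∀ g, 0 ≤ Φ g ∧ Φ g ≤ 1) ∧ (∀ g, |Φn g| ≤ C) ∧ (∀ g, |Φl g| ≤ C * Real.exp (3 * (4000 * m))) ∧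
      (∃ B : Set (XG Γ), μ.real B ≤ δ / N ∧ ∀ g, mkX Γ g ∈ Low Γ μ ρ → mkX Γ g ∉ B → Φ g = 1) ∧
      ∃ A : Finset SL(2, ℝ), (A.card : ℝ) ≤ Real.exp ((ρ + η) * (((w.2 : ℝ) - w.1) * m)) ∧ ∀ g, Φ g ≠ 0 → g * aM (w.1 * m) ∈ FW Γ A (16 * a) (Real.exp (-(((w.2 : ℝ) - w.1) * m))) := by
    intro w hw1 hw2
    have hl1 : m ≤ (w.2 - w.1) * m := Nat.le_mul_of_pos_left m (by omega)
    obtain ⟨A, hA, hmA⟩ := hn0 ((w.2 - w.1) * m) (by omega)
    have e1 : (((w.2 - w.1) * m : ℕ) : ℝ) = ((w.2 : ℝ) - w.1) * (m : ℝ) := by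
      rw [Nat.cast_mul, Nat.cast_sub hw1.le]
    have hwR : (w.1 : ℝ) + 1 ≤ w.2 := by exact_mod_cast hw1
    have hwR2 : (w.2 : ℝ) ≤ 12000 := by exact_mod_cast hw2
    have hn : 0 ≤ ((w.2 : ℝ) - w.1) * (m : ℝ) := mul_nonneg (by linarith) hm0
    rw [e1] at hA hmA
    obtain ⟨Ψ, Ψa, Ψn, Ψl, hS, hr, hn', hl, hone, hsup⟩ := hBX (((w.2 : ℝ) - w.1) * (m : ℝ)) A hn
    have hSs := (hSFP Γ _ _ _ _ hS).2.2 (w.1 * m : ℝ)
    refine ⟨_, _, _, _, hSs, fun g => hr _, fun g => ?_, fun g => ?_, ⟨{x | x ∈ Low Γ μ ρ ∧ fl Γ (w.1 * m) x ∉ BX Γ A a (((w.2 : ℝ) - w.1) * (m : ℝ))}, ?_, ?_⟩, A, hA, ?_⟩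
    · show |Real.exp (-(w.1 * m : ℝ)) * Ψn (g * aM (w.1 * m))| ≤ C
      rw [abs_mul, Real.abs_exp]
      have h0 : 0 ≤ (w.1 : ℝ) * m := by positivity
      exact (mul_le_of_le_one_left (abs_nonneg _) (Real.exp_le_one_iff.2 (by linarith))).trans (hn' _)
    · show |Real.exp (w.1 * m : ℝ) * Ψl (g * aM (w.1 * m))| ≤ C * Real.exp (3 * (4000 * m))
      rw [abs_mul, Real.abs_exp]
      calc Real.exp (w.1 * m : ℝ) * |Ψl (g * aM (w.1 * m))| ≤ Real.exp (w.1 * m : ℝ) * (C * Real.exp (((w.2 : ℝ) - w.1) * (m : ℝ))) := mul_le_mul_of_nonneg_left (hl _) (Real.exp_pos _).le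
        _ = C * Real.exp (w.2 * m) := by
            rw [mul_left_comm, ← Real.exp_add]
            congr 2
            ring
        _ ≤ C * Real.exp (3 * (4000 * m)) := by
            refine mul_le_mul_of_nonneg_left (Real.exp_le_exp.2 ?_) (by linarith)
            nlinarith
    · exact (FWD_mass hXFL hFLI hΓ hμ hinv ρ _ _).trans hmA
    · intro g hg hgB
      refine FWD_one hXFL hone g ?_
      by_contra hcon
      exact hgB ⟨hg, hcon⟩
    · intro g hg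
      exact hsup _ hg
  -- products
  have P : ∀ l' : List (ℕ × ℕ), (∀ w ∈ l', w.1 < w.2 ∧ w.2 ≤ 12000) → ∃ Ψ Ψa Ψn Ψl : SL(2, ℝ) → ℝ, SF Γ Ψ Ψa Ψn Ψl ∧ (∀ g, 0 ≤ Ψ g ∧ Ψ g ≤ 1) ∧ (∀ g, |Ψn g| ≤ (l'.length + 1) * C) ∧
      (∀ g, |Ψl g| ≤ (l'.length + 1) * (C * Real.exp (3 * (4000 * m)))) ∧
      (∃ B : Set (XG Γ), μ.real B ≤ (l'.length + 1) * (δ / N) ∧ ∀ g, mkX Γ g ∈ Low Γ μ ρ → mkX Γ g ∉ B → Ψ g = 1) ∧
      ∀ w ∈ (0, 12000) :: l', ∃ A : Finset SL(2, ℝ), (A.card : ℝ) ≤ Real.exp ((ρ + η) * (((w.2 : ℝ) - w.1) * m)) ∧ ∀ g, Ψ g ≠ 0 → g * aM (w.1 * m) ∈ FW Γ A (16 * a) (Real.exp (-(((w.2 : ℝ) - w.1) * m))) := by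
    intro l'
    induction l' with
    | nil =>
        intro _
        obtain ⟨Φ, Φa, Φn, Φl, h1, h2, h3, h4, ⟨B, h5, h6⟩, h7⟩ := W (0, 12000) (by norm_num) le_rfl
        refine ⟨Φ, Φa, Φn, Φl, h1, h2, ?_, ?_, ⟨B, ?_, h6⟩, ?_⟩
        · intro g
          simpa using h3 g
        · intro g
          simpa using h4 g
        · simpa using h5
        · intro w hw
          obtain rfl : w = (0, 12000) := by simpa using hw
          exact h7
    | cons u l' ih =>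
        intro hk
        obtain ⟨Ψ, Ψa, Ψn, Ψl, g1, g2, g3, g4, ⟨B, g5, g6⟩, g7⟩ := ih (fun w hw => hk w (List.mem_cons_of_mem _ hw))
        have hu := hk u List.mem_cons_self
        obtain ⟨Φ, Φa, Φn, Φl, h1, h2, h3, h4, ⟨B', h5, h6⟩, h7⟩ := W u hu.1 hu.2
        have hlen : ((u :: l').length : ℝ) = l'.length + 1 := by
          rw [List.length_cons]
          push_cast
          rfl
        refine ⟨_, _, _, _, (hSFP Γ _ _ _ _ g1).1 _ _ _ _ h1, ?_, ?_, ?_, ⟨B ∪ B', ?_, ?_⟩, ?_⟩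
        · intro g
          exact ⟨mul_nonneg (g2 g).1 (h2 g).1, mul_le_one₀ (g2 g).2 (h2 g).1 (h2 g).2⟩
        · intro g
          refine (BK2_mulb (g2 g).1 (g2 g).2 (h2 g).1 (h2 g).2 (g3 g) (h3 g)).trans (le_of_eq ?_)
          rw [hlen]
          ring
        · intro g
          refine (BK2_mulb (g2 g).1 (g2 g).2 (h2 g).1 (h2 g).2 (g4 g) (h4 g)).trans (le_of_eq ?_)
          rw [hlen]
          ring
        · refine (measureReal_union_le _ _).trans ((add_le_add g5 h5).trans (le_of_eq ?_))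
          rw [hlen]
          ring
        · intro g hg hgB
          rw [mem_union, not_or] at hgB
          show Ψ g * Φ g = 1
          rw [g6 g hg hgB.1, h6 g hg hgB.2, mul_one]
        · intro w hw
          rcases List.mem_cons.1 hw with rfl | hw'
          · obtain ⟨A, hA, hA2⟩ := g7 (0, 12000) List.mem_cons_self
            exact ⟨A, hA, fun g hg => hA2 g (left_ne_zero_of_mul hg)⟩
          · rcases List.mem_cons.1 hw' with rfl | hw''
            · obtain ⟨A, hA, hA2⟩ := h7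
              exact ⟨A, hA, fun g hg => hA2 g (right_ne_zero_of_mul hg)⟩
            · obtain ⟨A, hA, hA2⟩ := g7 w (List.mem_cons_of_mem _ hw'')
              exact ⟨A, hA, fun g hg => hA2 g (left_ne_zero_of_mul hg)⟩
  obtain ⟨Ψ, Ψa, Ψn, Ψl, g1, g2, g3, g4, ⟨B, g5, g6⟩, g7⟩ := P l hl1
  rw [← hN] at g3 g4 g5
  have hNC : 0 ≤ N * C := by positivity
  have hCyR : ∀ r : ℝ, 0 < r → Cy * r ≤ (N * C + Cy + Cw + 1) * r := fun r hr => mul_le_mul_of_nonneg_right (by linarith) hr.le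
  have hCwR : ∀ r : ℝ, 0 < r → Cw * r ≤ (N * C + Cy + Cw + 1) * r := fun r hr => mul_le_mul_of_nonneg_right (by linarith) hr.le
  refine ⟨Ψ, Ψa, Ψn, Ψl, g1, g2, fun g => (g3 g).trans (by linarith), fun g => (g4 g).trans ?_, ?_, ?_⟩
  · have h1 : 0 ≤ (Cy + Cw + 1) * Real.exp (3 * (4000 * m : ℝ)) := by positivity
    nlinarith
  · have hsub : Low Γ μ ρ \ one Γ Ψ ⊆ B := by
      intro x hx
      by_contra hcon
      obtain ⟨g, rfl⟩ := (hXFL Γ).2.2.2.2.1 x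
      exact hx.2 ⟨g, rfl, g6 g hx.1 hcon⟩
    refine (measureReal_mono hsub (measure_ne_top _ _)).trans (g5.trans (le_of_eq ?_))
    field_simp
  · intro g
    -- the length of a set in a window
    have len : ∀ (i : ℕ) (v : ℝ) (S : Set ℝ), (i, 12000) ∈ (0, 12000) :: l → i ≤ 12000 → (∀ x ∈ S, |x - v| ≤ 4 * Real.exp (-(i * m)) ∧ Ψ (g * lM x) ≠ 0) →
        volume.real S ≤ Cy * Real.exp ((ρ + η) * ((12000 - i) * m) - 12000 * m) := by
      intro i v S hi hi12 hS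
      obtain ⟨A, hA, hA2⟩ := g7 _ hi
      have hi12' : (i : ℝ) ≤ 12000 := by exact_mod_cast hi12
      have h2 : S ⊆ {x : ℝ | |x - v| ≤ 4 * Real.exp (-(i * m)) ∧ g * lM x * aM (i * m) ∈ FW Γ A (16 * a) (Real.exp (-((12000 - i) * m)))} := by
        intro x hx
        refine ⟨(hS x hx).1, ?_⟩
        have h3 := hA2 _ (hS x hx).2
        simpa using h3
      have h3 : volume {x : ℝ | |x - v| ≤ 4 * Real.exp (-(i * m)) ∧ g * lM x * aM (i * m) ∈ FW Γ A (16 * a) (Real.exp (-((12000 - i) * m)))} ≠ ⊤ := by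
        have h4 : {x : ℝ | |x - v| ≤ 4 * Real.exp (-(i * m)) ∧ g * lM x * aM (i * m) ∈ FW Γ A (16 * a) (Real.exp (-((12000 - i) * m)))} ⊆
            Icc (v - 4 * Real.exp (-(i * m))) (v + 4 * Real.exp (-(i * m))) := by
          intro x hx
          have h5 := abs_le.1 hx.1
          exact ⟨by linarith [h5.1], by linarith [h5.2]⟩
        exact ((measure_mono h4).trans_lt (by rw [Real.volume_Icc]; exact ENNReal.ofReal_lt_top)).ne
      have hn : 0 ≤ (12000 - (i : ℝ)) * m := mul_nonneg (by linarith) hm0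
      have hA' : (A.card : ℝ) ≤ Real.exp ((ρ + η) * ((12000 - i) * m)) := by simpa using hA
      calc volume.real S ≤ volume.real {x : ℝ | |x - v| ≤ 4 * Real.exp (-(i * m)) ∧ g * lM x * aM (i * m) ∈ FW Γ A (16 * a) (Real.exp (-((12000 - i) * m)))} := measureReal_mono h2 h3
        _ ≤ Cy * A.card * Real.exp (-(i * m + (12000 - i) * m)) := hY (16 * a) ((12000 - i) * m) (i * m) v A g (by positivity) h16 hn
        _ ≤ Cy * Real.exp ((ρ + η) * ((12000 - i) * m)) * Real.exp (-(i * m + (12000 - i) * m)) := by gcongr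
        _ = Cy * Real.exp ((ρ + η) * ((12000 - i) * m) - 12000 * m) := by
          rw [mul_assoc, ← Real.exp_add]
          congr 2
          ring
    refine ⟨?_, ?_, ?_⟩
    · refine le_trans ?_ (hCyR _ (Real.exp_pos _))
      refine (len 0 (1 / 2) _ List.mem_cons_self (by norm_num) ?_).trans (le_of_eq ?_)
      · rintro x ⟨hx1, hx2⟩
        refine ⟨?_, hx2⟩
        rw [abs_le]
        norm_num
        constructor <;> linarith [hx1.1, hx1.2]
      · congr 2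
        push_cast
        ring
    · intro v
      refine le_trans ?_ (hCyR _ (Real.exp_pos _))
      refine (len 4000 v _ (List.mem_cons_of_mem _ hl2) (by norm_num) ?_).trans (le_of_eq ?_)
      · rintro x ⟨⟨hx1, hx2⟩, hx3⟩
        refine ⟨?_, hx2⟩
        rw [abs_le]
        push_cast
        exact ⟨by linarith [hx3.1], by linarith [hx3.2]⟩
      · congr 2
        push_cast
        ring
    · intro i j hij hj v K hK
      obtain ⟨A, hA, hA2⟩ := g7 (i, j) (List.mem_cons_of_mem _ (hl3 i j hij hj))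
      have hij' : (i : ℝ) + 1 ≤ j := by exact_mod_cast hij
      have hn : 0 ≤ ((j : ℝ) - i) * m := mul_nonneg (by linarith) hm0
      refine le_trans ?_ (hCwR _ (Real.exp_pos _))
      refine (hW (16 * a) (((j : ℝ) - i) * m) (i * m) v A g K (by positivity) h16 hn ?_).trans (mul_le_mul_of_nonneg_left hA hCw.le)
      intro k hk
      obtain ⟨x, ⟨hx1, hx2⟩, hx3, hx4⟩ := hK k hk
      refine ⟨x, hx3, hA2 _ hx2, ?_⟩
      rw [← hx4]
      congr 2
      congr 1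
      ring

end

end Pool.Agent.HH
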