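import Pool.Agent.helper17.HH.SpecH

/-!
# MP_07c750, project HH, block B: from graphs (differences in the large spectrum of a block) to multipliers, and the end of the pure part

For a bad `w` there are a set `A w` of about `e^(p/2)` cells and many blocks `I` with a dense graph `R w I` on `A w` such that `⌊s a⌋ - ⌊s a'⌋ ∈ V I` for `(a, a') ∈ R w I`, `s = κ_w om(w, X I)`, with `V I` INDEPENDENT of `w`. Balog-Szemeredi-Gowers (BGR, BFX) gives a dense part of `A w` whose image is in a translate of a FIXED set `V3 (V I) μ` and has small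
difference set; pigeonhole (BPW, BPG: two blocks `I, I'` far apart; BCS: one `w0`) and Ruzsa's triangle inequality (BOU); the dilations cancel and `m = q(w)/q(w0)`, `q(w) = om(w, X)/om(w, X')`, is a multiplier of `G = A' w0 / L` (BMU). The ring theorem RNG bounds the number of `w` (BFI).

RULES as in SpecR: row `hh:XXX`, file `Pool/Agent/<seat>/HH/XXX.lean`, `import Pool.Agent.helper17.HH.SpecB`, theorem `XXX_proof (..) : XXX_stmt`, namespace `Pool.Agent.HH`, `open scoped Pointwise`, auxiliary lemmas prefixed `XXX_`.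
-/

open scoped Pointwise
open MeasureTheory Set

set_option autoImplicit false

namespace Pool.Agent.HH

noncomputable section

/-- **Row BGR** (Balog-Szemeredi-Gowers, graph form; MEDIUM; pure). `n = |A| ≥ 1` (`n = 0` trivial). `A0` = the `a ∈ A` with `deg a = #{b : (a,b) ∈ R} ≥ (α/2) n`; `R0 = R ∩ (A0 × A)`, `r0 = |R0| ≥ (α/2) n²`. `N(b) = {a ∈ A0 : (a,b) ∈ R}`. `Ω` = the pairs `(a,a') ∈ A0²` with fewer than `λ n` common neighbours `b`, `λ = α³/128`; `ε = α/16`.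
`Σ_b |N(b)|² ≥ r0²/n`, `Σ_b |Ω ∩ N(b)²| ≤ λ n³`, and `λ n³/ε ≤ r0²/(2n)`: so some `b0` has `|N(b0)|² - |Ω ∩ N(b0)²|/ε ≥ r0²/(2n²) ≥ α² n²/8`. `A1 = N(b0)`: `|A1| ≥ α n/(2√2)`, `|Ω ∩ A1²| ≤ ε |A1|²`. `A'` = the `a ∈ A1` with at most `(α/8)|A1|` elements `a' ∈ A1`, `(a,a') ∈ Ω`: `|A1 \ A'| ≤ ε|A1|²/((α/8)|A1|) = |A1|/2`.
`B'` = the `b ∈ A` with `|N(b) ∩ A1| ≥ (α/4)|A1|`: from `Σ_b |N(b) ∩ A1| ≥ (α/2) n |A1|`: `|B'| ≥ (α/4) n`. For `a ∈ A'`, `b ∈ B'` there are `≥ (α/8)|A1|` elements `x ∈ N(b) ∩ A1` with `(a,x) ∉ Ω`, each with `≥ λ n` elements `y`: in all `≥ (α/8)(α n/(2√2)) α³ n/128 ≥ α⁵ n²/4096`. -/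
def BGR_stmt : Prop := ∀ (α : ℝ) (A : Finset ℤ) (R : Finset (ℤ × ℤ)), 0 < α → α ≤ 1 → R ⊆ A ×ˢ A → α * (A.card : ℝ) ^ 2 ≤ R.card →
  ∃ A' ⊆ A, ∃ B' ⊆ A, α / 6 * A.card ≤ A'.card ∧ α / 6 * A.card ≤ B'.card ∧ ∀ a ∈ A', ∀ b ∈ B',
    α ^ 5 / 4096 * (A.card : ℝ) ^ 2 ≤ (((A ×ˢ A).filter fun z => (a, z.2) ∈ R ∧ (z.1, z.2) ∈ R ∧ (z.1, b) ∈ R).card : ℝ)

/-- the elements of `V - V + V` with at least `μ` representations -/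
def V3 (V : Finset ℤ) (μ : ℝ) : Finset ℤ := ((V - V) + V).filter fun d : ℤ => μ ≤ (((V ×ˢ (V ×ˢ V)).filter fun z => z.1 - z.2.1 + z.2.2 = d).card : ℝ)

/-- **Row BV3** (SHORT; pure). The representations of different `d` are different triples. -/
def BV3_stmt : Prop := ∀ (V : Finset ℤ) (μ : ℝ), 0 < μ → ((V3 V μ).card : ℝ) * μ ≤ (V.card : ℝ) ^ 3

/-- **Row BFX** (the fixed set; short-medium; from BGR). `A', B'` from BGR. For `a ∈ A'`, `b ∈ B'` and a pair `z = (x, y)` of BGR: `f a - f b = (f a - f y) - (f x - f y) + (f x - f b)` with the three differences in `V`; the triple determines `f y` and `f x`, so at most `25` pairs `z`: at least `α⁵|A|²/102400 ≥ μ` triples, so `f a - f b ∈ V3 V μ`.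
Fix `b0 ∈ B'`: the element `b = f b0`. `f(A') - f(B') ⊆ V3`, `|f(B')| ≥ |B'|/5 ≥ α|A|/30`, Ruzsa's triangle inequality in `ℤ` (`#(X - X) #Y ≤ #(X - Y) #(Y - X)`). -/
def BFX_stmt : Prop := ∀ (α μ : ℝ) (A V : Finset ℤ) (R : Finset (ℤ × ℤ)) (f : ℤ → ℤ), 0 < α → α ≤ 1 → 0 < μ → A.Nonempty → R ⊆ A ×ˢ A → α * (A.card : ℝ) ^ 2 ≤ R.card →
  (∀ k, (A.filter fun a => f a = k).card ≤ 5) → (∀ z ∈ R, f z.1 - f z.2 ∈ V) → μ ≤ α ^ 5 / 102400 * (A.card : ℝ) ^ 2 →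
    ∃ A' ⊆ A, α / 6 * A.card ≤ A'.card ∧ (∃ b : ℤ, ∀ a ∈ A', f a - b ∈ V3 V μ) ∧ ((A'.image f - A'.image f).card : ℝ) ≤ 30 / (α * A.card) * ((V3 V μ).card : ℝ) ^ 2

/-- **Row BPW** (pairs with a large intersection; SHORT; pure). `Σ_(I,I') |A'_I ∩ A'_I'| = Σ_(a ∈ A) deg(a)² ≥ (Σ_I |A'_I|)²/|A| ≥ β² |B|² |A|` (`A` empty: every pair counts); pairs outside contribute less than `(β²/2)|A|` each, the others at most `|A|`. -/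
def BPW_stmt : Prop := ∀ (β : ℝ) (A B : Finset ℤ) (A' : ℤ → Finset ℤ), 0 ≤ β → β ≤ 1 → (∀ I ∈ B, A' I ⊆ A ∧ β * A.card ≤ (A' I).card) →
  β ^ 2 / 2 * (B.card : ℝ) ^ 2 ≤ (((B ×ˢ B).filter fun z => β ^ 2 / 2 * (A.card : ℝ) ≤ ((A' z.1 ∩ A' z.2).card : ℝ)).card : ℝ)

/-- **Row BPG** (pigeonhole; SHORT; pure). -/
def BPG_stmt : Prop := ∀ (τ : ℝ) (W : Finset ℤ) (U : Finset (ℤ × ℤ)) (T : ℤ → Finset (ℤ × ℤ)), U.Nonempty → (∀ w ∈ W, T w ⊆ U ∧ τ * U.card ≤ (T w).card) → ∃ z ∈ U, τ * (W.card : ℝ) ≤ ((W.filter fun w => z ∈ T w).card : ℝ)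

/-- **Row BCS** (one good `w0`; SHORT; pure; the same computation as BPW). `Σ_(w,w') |Z w ∩ Z w'| ≥ γ²|W|²|U|`: some `w0` has `Σ_w |Z w ∩ Z w0| ≥ γ² |W||U|`. (`U` empty: trivial.) -/
def BCS_stmt : Prop := ∀ (γ : ℝ) (W : Finset ℤ) (U : Finset (ℤ × ℤ)) (Z : ℤ → Finset (ℤ × ℤ)), 0 ≤ γ → γ ≤ 1 → W.Nonempty → (∀ w ∈ W, Z w ⊆ U ∧ γ * U.card ≤ (Z w).card) →
  ∃ w0 ∈ W, γ ^ 2 / 2 * (W.card : ℝ) ≤ ((W.filter fun w => γ ^ 2 / 2 * (U.card : ℝ) ≤ ((Z w ∩ Z w0).card : ℝ)).card : ℝ)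

/-- number of representations -/
def muB (α a0 : ℝ) : ℝ := α ^ 5 / 102400 * a0 ^ 2
/-- bound for the fixed set -/
def vB (α a0 Vb : ℝ) : ℝ := Vb ^ 3 / muB α a0
/-- bound for the difference sets -/
def dB (α a0 Vb : ℝ) : ℝ := 30 / (α * a0) * vB α a0 Vb ^ 2
/-- density of the product sets -/
def gB (α a0 Vb : ℝ) : ℝ := (α ^ 2 / 360 * a0) ^ 2 / vB α a0 Vb ^ 2
/-- bound for the mixed difference sets -/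
def kB (α a0 Vb : ℝ) : ℝ := dB α a0 Vb ^ 2 / (gB α a0 Vb ^ 2 / 2 * (α ^ 2 / 360 * a0))

/-- **Row BOU** (two blocks and one `w0`; MEDIUM-LONG; from BV3, BFX, BPW, BPG, BCS). `μ = muB α a0`. For `w ∈ W`, `I ∈ B w`: `A1 w I := A'` of BFX. BPW with `β = α/6`, `A = A w`, `B = B w`: at least `(α²/72) θ² Mb²` pairs `(I, I') ∈ (B w)²` with `|A1 w I ∩ A1 w I'| ≥ (α²/72)|A w|`; at most `Mb M1 ≤ (α²θ²/144) Mb²` of them have `|X I - X I'| < ϑ`.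
BPG with `U = S × S` (`|U| ≤ Mb²`), `T w` = the remaining pairs, `τ = α²θ²/144`: `I, I'`, `W1 ⊆ W`. `A' w := A1 w I ∩ A1 w I'`; `B_w = f w I (A' w) - b_w ⊆ V3 (V I) μ`, `B'_w = f w I' (A' w) - b'_w ⊆ V3 (V I') μ`, both with at least `(α²/360) a0` elements. BCS with `U = V3 (V I) μ × V3 (V I') μ` (`|U| ≤ vB²`), `Z w = B_w × B'_w`, `γ = gB`
(`γ ≤ 1` since `γ vB² ≤ |Z w| ≤ |U| ≤ vB²`): `w0`, `W2`. `|B_w ∩ B_w0| |B'_w ∩ B'_w0| ≥ (γ²/2)|V3||V3'|`, so `|B_w ∩ B_w0| ≥ (γ²/2)|V3| ≥ (γ²/2)(α²/360) a0` and the same for `B'`. With `D = B_w ∩ B_w0`: `|B_w - B_w0| |D| ≤ |B_w - D||D - B_w0| ≤ |B_w - B_w||B_w0 - B_w0| ≤ dB²` (BFX, `|A w| ≥ a0`, subsets, translations do not change the cardinality). -/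
def BOU_stmt : Prop := ∀ (α θ a0 Vb Mb M1 ϑ : ℝ) (S W : Finset ℤ) (X : ℤ → ℝ) (V A B : ℤ → Finset ℤ) (R : ℤ → ℤ → Finset (ℤ × ℤ)) (f : ℤ → ℤ → ℤ → ℤ),
  0 < α → α ≤ 1 → 0 < θ → θ ≤ 1 → 0 < a0 → 0 < Mb → (S.card : ℝ) ≤ Mb → (∀ I ∈ S, ((S.filter fun I' => |X I' - X I| < ϑ).card : ℝ) ≤ M1) → M1 ≤ α ^ 2 * θ ^ 2 / 144 * Mb → (∀ I ∈ S, ((V I).card : ℝ) ≤ Vb) → W.Nonempty →
  (∀ w ∈ W, a0 ≤ (A w).card ∧ B w ⊆ S ∧ θ * Mb ≤ (B w).card ∧ ∀ I ∈ B w, R w I ⊆ A w ×ˢ A w ∧ α * ((A w).card : ℝ) ^ 2 ≤ (R w I).card ∧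
    (∀ k, ((A w).filter fun a => f w I a = k).card ≤ 5) ∧ ∀ z ∈ R w I, f w I z.1 - f w I z.2 ∈ V I) →
  ∃ I ∈ S, ∃ I' ∈ S, ϑ ≤ |X I - X I'| ∧ ∃ w0 ∈ W, ∃ W2 ⊆ W, α ^ 2 * θ ^ 2 / 144 * (gB α a0 Vb ^ 2 / 2) * W.card ≤ W2.card ∧ ∃ A' : ℤ → Finset ℤ,
    (∀ w ∈ insert w0 W2, I ∈ B w ∧ I' ∈ B w ∧ A' w ⊆ A w ∧ α ^ 2 / 72 * (A w).card ≤ (A' w).card) ∧
    ∀ w ∈ W2, (((A' w).image (f w I) - (A' w0).image (f w0 I)).card : ℝ) ≤ kB α a0 Vb ∧ (((A' w).image (f w I') - (A' w0).image (f w0 I')).card : ℝ) ≤ kB α a0 Vb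

/-- **Row BMU** (multipliers; short-medium; from RCV, RRU). In units of `1` (at the end scale by `1/N`: `dl`): `cov 1 (s A - s0 A0) ≤ 2K` (`s1` with `d = 1`; `cel 1 (s A) = image ⌊s a⌋`), divide by `s` (`dl`, then `co`, `fi`): `cov 1 (A - (s0/s) A0) ≤ C K`, the same for `t`. RRU with `(s0/s) A0`, `A`, `(t0/t) A0` (signs: `ng`): `cov 1 ((s0/s) A0 - (t0/t) A0) |A| ≤ C K²`
(`cov 1 A = |A|` for integers). Divide by `s0/s`: `A0 - (t0/t)(s/s0) A0`. -/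
def BMU_stmt : Prop := ∃ C : ℝ, 1 ≤ C ∧ ∀ (N K s t s0 t0 : ℝ) (A A0 : Finset ℤ), 1 ≤ N → 1 / 4 ≤ s → s ≤ 8 → 1 / 4 ≤ t → t ≤ 8 → 1 / 4 ≤ s0 → s0 ≤ 8 → 1 / 4 ≤ t0 → t0 ≤ 8 → A.Nonempty →
  ((A.image (fun a : ℤ => ⌊s * a⌋) - A0.image (fun a : ℤ => ⌊s0 * a⌋)).card : ℝ) ≤ K → ((A.image (fun a : ℤ => ⌊t * a⌋) - A0.image (fun a : ℤ => ⌊t0 * a⌋)).card : ℝ) ≤ K →
    (cov (1 / N) (A0.image (fun a : ℤ => (a : ℝ) / N) - dil (t0 / t * (s / s0)) (A0.image (fun a : ℤ => (a : ℝ) / N))) : ℝ) * A.card ≤ C * K ^ 2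

/-- `om w X / om w X'` -/
def qq (X X' w : ℝ) : ℝ := ((1 - w * X') / (1 - w * X)) ^ 2

/-- **Row BQW** (short; pure). `(d/dw) (1 - w X')/(1 - w X) = (X - X')/(1 - w X)²`, and `1 - w X, 1 - w X' ∈ [13/16, 19/16]`; mean value theorem, or algebra: `(1 - w X')/(1 - w X) - (1 - w' X')/(1 - w' X) = (X - X')(w - w')/((1 - w X)(1 - w' X))` and `x² - y² = (x - y)(x + y)`. -/
def BQW_stmt : Prop := ∃ C : ℝ, 1 ≤ C ∧ ∀ X X' w w' : ℝ, |X| ≤ 3 → |X'| ≤ 3 → |w| ≤ 1 / 16 → |w'| ≤ 1 / 16 → |X - X'| * |w - w'| ≤ C * |qq X X' w - qq X X' w'| ∧ |qq X X' w - qq X X' w'| ≤ C * |w - w'| ∧ 2 / 5 ≤ qq X X' w ∧ qq X X' w ≤ 5 / 2 ∧ IR.om w X / IR.om w X' = qq X X' w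

/-- **Row BMF** (the set of multipliers is as regular as the set of the `w`; short-medium; from RCV, BQW). `m_k = qq X X' (w k)/q0`. Two `k, k'` with `|m_k - m_k'| ≤ 2s` (`s ≥ 1/(2N)`) have `|w k - w k'| ≤ C s/ϑ`, so `|k - k'| ≤ C s N/ϑ + 1 ≤ C' s N/ϑ`: for one cell (`s = 1/N`) at most `C/ϑ` values of `k`. Second claim: `k0` = one of the `k` with `m_k ∈ lc M x0 s` (if there is none: `0`). -/
def BMF_stmt : Prop := ∃ C : ℝ, 1 ≤ C ∧ ∀ (N : ℕ) (ϑ X X' q0 : ℝ) (W : Finset ℤ) (w : ℤ → ℝ), 1 ≤ N → |X| ≤ 3 → |X'| ≤ 3 → 0 < ϑ → ϑ ≤ 1 → ϑ ≤ |X - X'| → 2 / 5 ≤ q0 → q0 ≤ 5 / 2 → (∀ k ∈ W, (k : ℝ) / N ≤ w k ∧ w k ≤ (k + 1) / N ∧ |w k| ≤ 1 / 16) →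
  (W.card : ℝ) ≤ C / ϑ * cov (1 / N) (W.image fun k => qq X X' (w k) / q0) ∧ ∀ s x0 : ℝ, 1 / N ≤ s → ∃ k0 : ℤ, (cov (1 / N) (lc (W.image fun k => qq X X' (w k) / q0) x0 s) : ℝ) ≤ ((W.filter fun k : ℤ => |(k : ℝ) - k0| ≤ C * s * N / ϑ).card : ℝ)

/-- covering numbers of a set of cells -/
def CA (C : ℝ) (m L : ℕ) (A : Finset ℤ) : Prop := (∀ a ∈ A, 0 ≤ a ∧ a ≤ (L : ℤ)) ∧ ∀ i j : ℕ, i < j → j ≤ 4000 → ∀ (v : ℝ) (K : Finset ℤ),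
  (∀ k ∈ K, ∃ a ∈ A, |(a : ℝ) / L - v| ≤ Real.exp (-(i * m)) ∧ ⌊(a : ℝ) / L * Real.exp (j * m)⌋ = k) → (K.card : ℝ) ≤ C * Real.exp ((1 / 2 + eta) * ((j - i) * m))

/-- **Row BGC** (interpolation between the grid scales; short-medium; pure, RCV). `p = 4000 m`, `e^p ≤ L ≤ C e^p`. `1/L ≤ d ≤ s ≤ 1`. `i = ⌊-log s/m⌋` (`e^(-im) ≥ s > e^(-(i+1)m)`), `j = min 4000 (i + 1 + ..)` the least `j > i` with `e^(-jm) ≤ d`, or `4000` (then `d ≥ 1/L ≥ e^(-p)/C`). `cov d ≤ 2 cov e^(-jm)` (`co`) or `(C + 2) cov e^(-p)` (`fi`); the cells of length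
`e^(-jm)` of `lc G x0 s` are counted by `CA` (`x/e^(-jm) = x e^(jm)`): `≤ C e^((1/2+η)(j-i)m)`, `(j - i) m ≤ log (s/d) + 2m + log C`-ish: `≤ C' (s/d)^(1/2) e^(η(p + ..)) e^((1+2η) m) ≤ L^(1/1000) √(s/d)` for large `m` (`e^m = e^(p/4000)`). (`i = 4000` happens only for `s` about `1/L`: then use `i = 3999`.) -/
def BGC_stmt : Prop := ∀ C : ℝ, 1 ≤ C → ∃ m0 : ℕ, ∀ (m L : ℕ) (A A' : Finset ℤ), m0 ≤ m → Real.exp (4000 * m) ≤ L → (L : ℝ) ≤ C * Real.exp (4000 * m) → CA C m L A → A' ⊆ A →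
  (∀ x ∈ A'.image (fun a : ℤ => (a : ℝ) / L), 0 ≤ x ∧ x ≤ 1) ∧ ∀ d s x0 : ℝ, 1 / (L : ℝ) ≤ d → d ≤ s → s ≤ 1 → (cov d (lc (A'.image (fun a : ℤ => (a : ℝ) / L)) x0 s) : ℝ) ≤ (L : ℝ) ^ (1 / 1000 : ℝ) * Real.sqrt (s / d)

/-- **Row BWC** (the same for the admissible `w`; short-medium; pure). `y = c1 s L e^m` is the half length (`ϑ = e^(-m)`). If `y ≥ L`: the count is at most that of `i = 0` (all of `W` is in `|k - 0| ≤ L`): `C e^((1/2+η)p)`, and `s ≥ e^(-m)/c1`. Otherwise `i ≤ 4000` maximal with `L e^(-im) ≥ y` (`s ≥ 1/L`, so `y ≥ 1`): `C e^((1/2+η)(p - im))`, `e^(p-im) ≤ C' e^m y ≤ C'' s L e^(2m)`.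
So `≤ C (sL)^(1/2) e^(ηp) e^((1+2η)m) ≤ L^(1/1000) √(sL)` for large `m`. -/
def BWC_stmt : Prop := ∀ C c1 : ℝ, 1 ≤ C → 1 ≤ c1 → ∃ m0 : ℕ, ∀ (m L : ℕ) (W : Finset ℤ), m0 ≤ m → Real.exp (4000 * m) ≤ L → (L : ℝ) ≤ C * Real.exp (4000 * m) → (∀ k ∈ W, 16 * (|k| + 1) ≤ (L : ℤ)) → GW C m L W →
  ∀ (s : ℝ) (k0 : ℤ), 1 / (L : ℝ) ≤ s → s ≤ 1 → ((W.filter fun k : ℤ => |(k : ℝ) - k0| ≤ c1 * s * L / Real.exp (-m)).card : ℝ) ≤ (L : ℝ) ^ (1 / 1000 : ℝ) * Real.sqrt (s * L)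

/-- the data of a set of bad cells: `p = 4000 m`, `u1 = 1/400000`; for `k ∈ W`: `w k`, `κ k`, the cells `A k`, the bad blocks `B k`, the graphs `R k I`, the fixed sets `V I` -/
structure BDT (C : ℝ) (m L : ℕ) (S W : Finset ℤ) (X : ℤ → ℝ) (V : ℤ → Finset ℤ) (w κ : ℤ → ℝ) (A B : ℤ → Finset ℤ) (R : ℤ → ℤ → Finset (ℤ × ℤ)) : Prop where
  l1 : Real.exp (4000 * m) ≤ L
  l2 : (L : ℝ) ≤ C * Real.exp (4000 * m)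
  s0 : (S.card : ℝ) ≤ C * Real.exp ((1 / 2 + eta) * (2 * (4000 * m)))
  s1 : ∀ I ∈ S, ((S.filter fun I' => |X I' - X I| < Real.exp (-m)).card : ℝ) ≤ C * Real.exp ((1 / 2 + eta) * (7999 * m))
  x0 : ∀ I ∈ S, |X I| ≤ 3
  v0 : ∀ I ∈ S, ((V I).card : ℝ) ≤ C * Real.exp ((1 / 2 + 2 / 400000) * (4000 * m))
  w0 : ∀ k ∈ W, 16 * (|k| + 1) ≤ (L : ℤ)
  w1 : GW C m L W
  w2 : ∀ k ∈ W, (k : ℝ) / L ≤ w k ∧ w k ≤ (k + 1) / L ∧ 1 / 2 ≤ κ k ∧ κ k ≤ 2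
  a0 : ∀ k ∈ W, Real.exp ((1 / 2 - 1 / 400000) * (4000 * m)) ≤ C * (A k).card
  a1 : ∀ k ∈ W, CA C m L (A k)
  b0 : ∀ k ∈ W, B k ⊆ S ∧ Real.exp (-(4000 * m) / 400000) * (C * Real.exp ((1 / 2 + eta) * (2 * (4000 * m)))) ≤ (B k).card
  r0 : ∀ k ∈ W, ∀ I ∈ B k, R k I ⊆ A k ×ˢ A k ∧ Real.exp (-2 * (4000 * m) / 400000) * ((A k).card : ℝ) ^ 2 ≤ C * (R k I).card ∧ ∀ z ∈ R k I, ⌊κ k * IR.om (w k) (X I) * z.1⌋ - ⌊κ k * IR.om (w k) (X I) * z.2⌋ ∈ V I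

/-- **Row BFI** (few bad `w`; MEDIUM-LONG, exponents; from BOU, BMU, BQW, BMF, BGC, BWC, RNG, RCV). Suppose `|W| > e^((1/2 - 1/4000) p)`, `p = 4000 m` large. BOU with `α = e^(-2 u1 p)/C`, `θ = e^(-u1 p)`, `a0 = e^((1/2-u1)p)/C`, `Vb`, `Mb`, `M1` as in the structure, `ϑ = e^(-m) = e^(-p/4000)`, `f k I a = ⌊κ om(w, X I) a⌋` (`s = κ om ∈ [1/4, 8]`, so at most `5` to `1`).
`M1/Mb = e^(-(1/2+η)m)`, `α²θ²/144 = c e^(-6 u1 p)`: fine. Exponents of `e^p` (up to constants): `muB: 1 - 12 u1`, `vB: 1/2 + 18 u1`, `dB: 1/2 + 39 u1`, `gB: -46 u1`, `kB: 1/2 + 175 u1`, `|A' k| ≥ c e^((1/2 - 5u1)p)`, `|W2| ≥ c e^(-98 u1 p)|W| ≥ c e^((1/2 - 1/4000 - 98 u1)p)`.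
`G = A' w0/L` : `cov (1/L) G ≥ |A' w0|/2` (`a/L` are in different cells up to rounding; or `cc`), BGC. `M = {m_k} = {qq X_I X_I' (w k)/qq X_I X_I' (w w0)}`, `k ∈ W2`, in `[1/8, 8]`; BMU (`t0/t · s/s0 = qq(w k)/qq(w w0)`, the `κ` cancel): `cov (G - mG) ≤ C kB²/|A' k| ≤ C e^((1/2 + 355 u1)p) ≤ L^(1/1000) cov G` (`360 u1 = 0.0009`).
BMF and BWC: the regularity of `M`, and `cov M ≥ c ϑ |W2| ≥ c e^((1/2 - 1/4000 - 98 u1 - 1/4000)p) > L^(1/2 - 1/1000)` (`0.0005 + 0.000245 < 0.001`), a contradiction to RNG with `N = L`. -/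
def BFI_stmt : Prop := ∀ C : ℝ, 1 ≤ C → ∃ m0 : ℕ, ∀ (m L : ℕ) (S W : Finset ℤ) (X : ℤ → ℝ) (V : ℤ → Finset ℤ) (w κ : ℤ → ℝ) (A B : ℤ → Finset ℤ) (R : ℤ → ℤ → Finset (ℤ × ℤ)),
  m0 ≤ m → BDT C m L S W X V w κ A B R → (W.card : ℝ) ≤ Real.exp ((1 / 2 - 1 / 4000) * (4000 * m))

end

end Pool.Agent.HH
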