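import Pool.Agent.helper62.HH.SpecD1
import Pool.Agent.helper52.IR.SpecC

/-!
# MP_07c750 (quantum unique ergodicity, weight 10), project HH, block D, last part: the harmonised rows HFX, HBX, HHX (they replace HFW, HBK, HHM of `Pool/Agent/helper25/HH/SpecE.lean`)

Interface: `Pool/Agent/helper17/HH/SpecH.lean` (`eta = 2 · 10^(-7)`, `GY C m Y`, `HAL_stmt`), `Pool/Agent/helper62/HH/SpecD1.lean` (HLF). `p = 4000 m`, `h = 1/2 + 10^(-7)`, `a1 = 1/2 - 1/5000`.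
-/

open scoped MatrixGroups ContDiff Topology UpperHalfPlane ComplexConjugate
open UpperHalfPlane MeasureTheory Filter Set

set_option autoImplicit false

namespace Pool.Agent.HH

open Pool.Agent.RS
open Pool.Agent.MS (bq BB BA SF pf)
open Pool.Agent.HV (FW)
open Pool.Agent.EN (XG MG mkX mkM fl pr)
open Pool.Agent.ER (Low LowJ)

noncomputable section

/-- **Row YCW** (covering number of the leaf set in one window; short; from IR.CTF, RS.GLC; compare helper67/IR/YVO.lean). `g lM x aM σ = (g lM v aM σ) lM z`, `z = e^σ (x - v)`, `|z| ≤ 1`: the `z` are in at most `C |A|` cells `⌊z e^k⌋` of length `e^(-k)` (CTF), and for one cell of `z` the numbers `x e^(σ + k) = v e^(σ + k) + z e^k` are in an interval of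
length `1`, so `⌊x e^(σ + k)⌋` has at most `2` values. -/
def YCW_stmt : Prop := ∀ Γ : Subgroup SL(2, ℝ), QU.SurfaceGroup Γ → ∃ C : ℝ, 0 < C ∧ ∀ (b k σ v : ℝ) (A : Finset SL(2, ℝ)) (g : SL(2, ℝ)) (K : Finset ℤ), 0 < b → b ≤ 1 / 100 → 0 ≤ k →
  (∀ c ∈ K, ∃ x : ℝ, |x - v| ≤ Real.exp (-σ) ∧ g * lM x * aM σ ∈ FW Γ A b (Real.exp (-k)) ∧ ⌊x * Real.exp (σ + k)⌋ = c) → (K.card : ℝ) ≤ C * A.card

/-- **Row HFX** (the forward function with all windows; medium; the proof of HFW in helper25/HH/HFW.lean; from MS.BXM, IR.SFP, IR.COV, IR.FLI, IR.YVO, YCW, EN.XFL). `Ψ(g) = Π Ψ_w(g a_(i m))` over the windows `w = (i, j)`: `(0, 12000)`, `(4000, 12000)` and all `i < j ≤ 4000`; `Ψ_w` for the boxes of length `(j - i) m` of COV with `η` and `δ` divided by the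
number of the windows. `C3` = number of windows times the constant of BXM, plus the constants of YVO and YCW (`e^(i m) C e^((j - i) m) ≤ C e^(12000 m)`). -/
def HFX_stmt : Prop := ∀ (Γ : Subgroup SL(2, ℝ)) (μ : Measure (XG Γ)) (ρ : ℝ), QU.SurfaceGroup Γ → IsProbabilityMeasure μ → (∀ t, μ.map (fl Γ t) = μ) → 0 ≤ ρ → ∃ a0 : ℝ, 0 < a0 ∧ ∀ a : ℝ, 0 < a → a ≤ a0 → ∃ C3 : ℝ, 1 ≤ C3 ∧
  ∀ η δ : ℝ, 0 < η → 0 < δ → ∃ m0 : ℕ, ∀ m : ℕ, m0 ≤ m → ∃ Ψ Ψa Ψn Ψl : SL(2, ℝ) → ℝ, SF Γ Ψ Ψa Ψn Ψl ∧ (∀ g, 0 ≤ Ψ g ∧ Ψ g ≤ 1) ∧ (∀ g, |Ψn g| ≤ C3) ∧ (∀ g, |Ψl g| ≤ C3 * Real.exp (3 * (4000 * m))) ∧ μ.real (Low Γ μ ρ \ IR.one Γ Ψ) ≤ δ ∧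
    ∀ g : SL(2, ℝ), volume.real (Icc (0 : ℝ) 1 ∩ {v | Ψ (g * lM v) ≠ 0}) ≤ C3 * Real.exp ((ρ + η) * (3 * (4000 * m)) - 3 * (4000 * m)) ∧
      (∀ v : ℝ, volume.real (Icc (0 : ℝ) 1 ∩ {v | Ψ (g * lM v) ≠ 0} ∩ Icc (v - 4 * Real.exp (-(4000 * m))) (v + 4 * Real.exp (-(4000 * m)))) ≤ C3 * Real.exp ((ρ + η) * (2 * (4000 * m)) - 3 * (4000 * m))) ∧
      ∀ i j : ℕ, i < j → j ≤ 4000 → ∀ (v : ℝ) (K : Finset ℤ), (∀ k ∈ K, ∃ x ∈ Icc (0 : ℝ) 1 ∩ {v | Ψ (g * lM v) ≠ 0}, |x - v| ≤ Real.exp (-(i * m)) ∧ ⌊x * Real.exp (j * m)⌋ = k) → (K.card : ℝ) ≤ C3 * Real.exp ((ρ + η) * ((j - i) * m))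

/-- **Row HBX** (the backward function; medium; the proof of helper25/HH/HBK.lean; from MS.BXM, IR.SFP, IR.COV, IR.FLI, IR.LOB, HLF, EN.XFL). `m = 2q`, `p = 4000 m`. `a` so small that `16 a ≤ b1` (LOB for `1/2 - 1/5000`, `δ/4004`), `a ≤ 1/1600`. `Ap, At, As, Af i` from COV for `Low (1/2 + ε0)`, `eta - ε0`, lengths `p, 2p, 2p - m, (4000 - i) m`;
`Ab` from HLF, `|Ab| ≤ C e^((1/2 - 1/4000) p) ≤ e^((1/2 - 1/5000) p)`. `Ψ(g) = Ψ_p(g) Ψ_t(g a_p) Ψ_s(g a_p) Π_(i < 4000) Ψ_i(g a_(3p + i m)) (1 - Ψ_b(g a_(3p)))`. -/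
def HBX_stmt : Prop := ∀ (Γ : Subgroup SL(2, ℝ)) (μ : Measure (XG Γ)) (ε0 : ℝ), QU.SurfaceGroup Γ → IsProbabilityMeasure μ → (∀ t, μ.map (fl Γ t) = μ) → 0 ≤ ε0 → ε0 < eta → HAL_stmt →
  ∀ Λ2 C3 δ : ℝ, 1 ≤ Λ2 → 1 ≤ C3 → 0 < δ → ∃ q0 : ℕ, ∀ (q : ℕ) (εc : ℝ), q0 ≤ q → εc = Real.pi / (2 * Λ2) * Real.exp (-(3 * (4000 * (2 * q)))) →
    ∃ (Ψ Ψa Ψn Ψl : SL(2, ℝ) → ℝ) (B : ℝ), SF Γ Ψ Ψa Ψn Ψl ∧ (∀ g, 0 ≤ Ψ g ∧ Ψ g ≤ 1) ∧ (∀ g, |Ψn g| ≤ B) ∧ (∀ g, |Ψl g| ≤ B) ∧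
      μ.real ((Low Γ μ (1 / 2 + ε0) \ Low Γ μ (1 / 2 - 1 / 5000)) \ IR.one Γ Ψ) ≤ δ ∧
      ∀ (l l0 : ℝ) (g : SL(2, ℝ)) (J : Finset ℤ) (cj : ℤ → ℂ) (Y : Set ℝ), 0 ≤ l → l ≤ l0 → l0 ≤ εc / 100 → (∀ j ∈ J, IR.JC {k | Ψ (k * aM (-(3 * (4000 * (2 * q))))) ≠ 0} εc l l0 g j) → GY C3 (2 * q) Y →
        ∫ v in Y, ‖∑ j ∈ J, cj j * Complex.exp (((Real.pi * j * v / 2 : ℝ) : ℂ) * Complex.I)‖ ^ 2 ≤ 32 * Real.exp (-(4000 * (2 * q)) / 1000000) * ∑ j ∈ J, ‖cj j‖ ^ 2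

/-- **Row HHX** (THE THEOREM for a measure with the property GP; medium; the proof of IRM_core in helper52/IR/IRM.lean, whose lemmas IRM_pt, IRM_cont, IRM_int, IRM_triv, IRM_split, IRM_exp, IRM_mass may be quoted; from RS.GLC, HFX, IR.BK1, HBX, IR.SFP). `ρ = h = 1/2 + 1/10000000` (`ε0 = 10^(-7)`), `a1 = 1/2 - 1/5000`, `η' = 1/20000000`
(`h + η' ≤ 1/2 + eta`, `a1 + h + 2 η' < 1`). For `0 < e ≤ 1`: `δ = (e/200)²`, `C3` from HFX (`a := a0`), `Λ2 = 4 K C3/δ`, BK1 for `a1`, `η'`, mass `e`, HBX for `C3`, mass `e`, HFX for `η'`, mass `e`; `q` large, `m = 2q`, `n = 3 (4000 (2q))`, `εc = π/(2 Λ2) e^(-n)`. `Ψ' = 1 - (1 - Ψ1)(1 - Ψ2)`. LFC: `Y = Icc 0 1 ∩ {v | Ψ (g' lM v) ≠ 0}`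
satisfies `GY C3 (2q)` (`h + η' ≤ 1/2 + eta`); `J1` = the `j` of `Ψ1`: `|J1| vol Y ≤ C1 C3 e^((a1 + η' + h + η' - 1) 3p)`, the exponent is negative; the other `j` by HBX. So `2 F(h) ≤ 1 + 4 e` for all `e`. -/
def HHX_stmt : Prop := HAL_stmt → ∀ (Γ : Subgroup SL(2, ℝ)) (μ : Measure (XG Γ)) (K : ℝ), QU.SurfaceGroup Γ → IsProbabilityMeasure μ → (∀ t, μ.map (fl Γ t) = μ) → 1 ≤ K → IR.GP Γ μ K → μ.real (Low Γ μ (1 / 2 + 1 / 10000000)) ≤ 1 / 2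

end

end Pool.Agent.HH
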