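import Mathlib

/-!
# MP_07c750 (quantum unique ergodicity, weight 10), project HH, block R: THE RING THEOREM (the real line has no subring of dimension 1/2)

THEOREM (RNG). `δ = 1/N`, `u = 1/1000`. Let `G ⊆ [0,1]` have at most `N^u (s/d)^(1/2)` cells of length `d` in every interval of length `s` (`δ ≤ d ≤ s ≤ 1`), and at least `N^(1/2-u)` cells of length `δ`; let `M ⊆ [1/8, 8]` have at most `N^u (s N)^(1/2)` cells of length `δ` in every interval of length `s`,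
and let every `m ∈ M` be a multiplier of `G`: `G - m G` has at most `N^u` times as many cells as `G`. Then `M` has at most `N^(1/2-u)` cells.
PROOF. `Q = {(m3-m4)/(m5-m6) : |m5-m6| ≥ r1 = N^(-1/5)} ∩ [0,1]`, `ρ = N^(-1/5)`. Case A: some `x ∈ Q` and `x' = x/2` or `(x+1)/2` with `|x' - y| > ρ` for all `y ∈ Q`: then `(m1,m2) ↦ m1 + x' m2` is injective on (a `δ'`-separated subset) x (an `r1`-separated subset) of `M`, and all `m1 + x' m2` are multipliers at scale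
`δ' = δ/|m5-m6|` (row RMS: Pluennecke-Ruzsa, and `(m5-m6)(G + (m1+x'm2)G)` is in a short interval, row RLO); there are `N^(1/10-)` times too many of them (row RKL: a trivial energy count gives at most `T δ'^(-1/2)`-ish). Case B: otherwise `Q` is `3ρ`-dense in `[0,1]` (row RDN), and all `x ∈ Q` are multipliers at scale `ρ` (rows RMS, RCG):
`1/(8ρ)` of them, but RKL allows only `ρ^(-1/2) N^(0.05)`.

RULES. Row `hh:XXX`: file `Pool/Agent/<seat>/HH/XXX.lean`, `import Pool.Agent.helper17.HH.SpecR` (and what you need), `set_option autoImplicit false`, `open scoped Pointwise`, namespace `Pool.Agent.HH`, auxiliary lemmas prefixed `XXX_`, theorem `XXX_proof (h : YYY_stmt) .. : XXX_stmt`, hypotheses = other rows as you like (best the ones listed in `from`).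
No straight double quotes, no `convert`, `congr!`, `native_decide`. A false or doubtful statement: message to helper17 at once.
-/

open scoped Pointwise

set_option autoImplicit false

namespace Pool.Agent.HH

noncomputable section

/-- the cells of length `d` met by `E` (indices) -/
def cel (d : ℝ) (E : Finset ℝ) : Finset ℤ := E.image (fun x => ⌊x / d⌋)

/-- their number -/
def cov (d : ℝ) (E : Finset ℝ) : ℕ := (cel d E).card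

/-- the dilated set `m E` -/
def dil (m : ℝ) (E : Finset ℝ) : Finset ℝ := E.image (fun x => m * x)

/-- the part of `E` in `[x0 - s, x0 + s]` -/
def lc (E : Finset ℝ) (x0 s : ℝ) : Finset ℝ := E.filter (fun x => |x - x0| ≤ s)

/-- the `n`-fold sumset -/
def isum : ℕ → Finset ℝ → Finset ℝ
  | 0, _ => {0}
  | n + 1, U => U + isum n U

/-- **Row RCV** (basic facts on cells; SHORT; pure; every field is elementary). `cel` uses `⌊x/d⌋`. `dl`: `(m x)/(m d) = x/d`. `ng`: `⌊-a⌋ ∈ {-⌊a⌋, -⌊a⌋ - 1}`. `sh`: `⌊a + b⌋ ∈ {⌊a⌋ + ⌊b⌋, ⌊a⌋ + ⌊b⌋ + 1}`. `co`: a cell of length `d ≤ d'` meets at most two cells of length `d'`. `fi`: a cell of length `d'` meets at most `d'/d + 2` cells of length `d`.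
`s1`, `s2`, `a1`, `a2`: as `sh` (`(x - y)/d = x/d - y/d`). `sp`: the occupied cells of even index or those of odd index are at least half of all; take one point in each. `cc`: two points of one half open cell are at distance `< d`. -/
structure RCV_stmt : Prop where
  mo : ∀ (d : ℝ) (E F : Finset ℝ), E ⊆ F → cov d E ≤ cov d F
  un : ∀ (d : ℝ) (E F : Finset ℝ), cov d (E ∪ F) ≤ cov d E + cov d F
  ca : ∀ (d : ℝ) (E : Finset ℝ), cov d E ≤ E.card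
  po : ∀ (d : ℝ) (E : Finset ℝ), E.Nonempty → 1 ≤ cov d E
  dl : ∀ (d m : ℝ) (E : Finset ℝ), 0 < m → cov (m * d) (dil m E) = cov d E
  ng : ∀ (d : ℝ) (E : Finset ℝ), cov d (dil (-1) E) ≤ 2 * cov d E
  sh : ∀ (d x : ℝ) (E : Finset ℝ), cov d (E.image (fun y => y + x)) ≤ 2 * cov d E
  co : ∀ (d d' : ℝ) (E : Finset ℝ), 0 < d → d ≤ d' → cov d' E ≤ 2 * cov d E
  fi : ∀ (d d' : ℝ) (E : Finset ℝ), 0 < d → d ≤ d' → (cov d E : ℝ) ≤ (d' / d + 2) * cov d' E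
  s1 : ∀ (d : ℝ) (E F : Finset ℝ), cov d (E - F) ≤ 2 * (cel d E - cel d F).card
  s2 : ∀ (d : ℝ) (E F : Finset ℝ), (cel d E - cel d F).card ≤ 2 * cov d (E - F)
  a1 : ∀ (d : ℝ) (E F : Finset ℝ), cov d (E + F) ≤ 2 * (cel d E + cel d F).card
  a2 : ∀ (d : ℝ) (E F : Finset ℝ), (cel d E + cel d F).card ≤ 2 * cov d (E + F)
  sp : ∀ (d : ℝ) (E : Finset ℝ), 0 < d → ∃ E' ⊆ E, (∀ x ∈ E', ∀ y ∈ E', x ≠ y → d ≤ |x - y|) ∧ cov d E ≤ 2 * E'.card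
  cc : ∀ (d : ℝ) (E : Finset ℝ), 0 < d → (∀ x ∈ E, ∀ y ∈ E, x ≠ y → d ≤ |x - y|) → E.card ≤ cov d E

/-- **Row RRU** (Ruzsa triangle; short; from RCV; Mathlib `Finset.ruzsa_triangle_inequality_sub_sub_sub` for the sets `cel d ..` in `ℤ`; constants `2 * 2 * 2`). -/
def RRU_stmt : Prop := ∀ (d : ℝ) (A B C : Finset ℝ), cov d (A - C) * cov d B ≤ 8 * (cov d (A - B) * cov d (B - C))

/-- **Row RPL** (Pluennecke-Ruzsa for cells; short-medium; from RCV; Mathlib `Finset.pluennecke_ruzsa_inequality_nsmul_sub_nsmul_sub` or the like: `#(m • B - n • B) ≤ (#(A - B)/#A)^(m+n) #A` for `A = cel d G`, `B = cel d U` in `ℤ`). `#(cel d G - cel d U) ≤ 2 cov d (G - U)`. For `x ∈ isum a U - isum b U` the number `⌊x/d⌋` is an element of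
`a • B - b • B` plus an integer in `[-b-1, a+1]`: factor `a + b + 3`. -/
def RPL_stmt : Prop := ∀ a b : ℕ, ∃ C : ℝ, 0 < C ∧ ∀ (d : ℝ) (G U : Finset ℝ), G.Nonempty → U.Nonempty →
  (cov d (isum a U - isum b U) : ℝ) ≤ C * ((cov d (G - U) : ℝ) / cov d G) ^ (a + b) * cov d G

/-- **Row RML** (products of multipliers; short; from RCV, RRU). `G - mm'G`: RRU with `A = G`, `B = m G`, `C = m m' G`: `cov d (m G - m m' G) = cov (d/m) (G - m' G)` (`dl`; `m G - m (m' G) = m (G - m' G)`), change `d/m` to `d` with `co`, `fi` (`1/8 ≤ m ≤ 8`), and `cov d (m G) = cov (d/m) G ≥ cov d G/2` or `/10`. `G - G`: `A = C = G`, `B = m G`, `m G - G = -(G - m G)`. -/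
def RML_stmt : Prop := ∃ C : ℝ, 1 ≤ C ∧ ∀ (d K m m' : ℝ) (G : Finset ℝ), 0 < d → 1 ≤ K → G.Nonempty → 1 / 8 ≤ m → m ≤ 8 → 1 / 8 ≤ m' → m' ≤ 8 →
  (cov d (G - dil m G) : ℝ) ≤ K * cov d G → (cov d (G - dil m' G) : ℝ) ≤ K * cov d G →
    (cov d (G - dil (m * m') G) : ℝ) ≤ C * K ^ 2 * cov d G ∧ (cov d (G - G) : ℝ) ≤ C * K ^ 2 * cov d G

/-- **Row RLO** (local bound; short-medium; from RCV). Choose the residue `c` modulo `6` for which the most cells of length `R` of `E` have index `≡ c`, and one point `e_k` of `E` in each of them: at least `cov R E / 6` points. The sets `e_k + lc D x0 R` are in the intervals `[kR + x0 - R, (k+1)R + x0 + R]`, at distance `≥ 3R ≥ d` from each other,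
so they meet different cells of length `d`; each meets at least `cov d (lc D x0 R)/2` (`sh`). `C = 12`. -/
def RLO_stmt : Prop := ∃ C : ℝ, 1 ≤ C ∧ ∀ (d R x0 : ℝ) (E D : Finset ℝ), 0 < d → d ≤ R → (cov d (lc D x0 R) : ℝ) * cov R E ≤ C * cov d (E + D)

/-- a set of dimension `1/2` at all scales (constant `D`) -/
structure GC (G : Finset ℝ) (δ D : ℝ) : Prop where
  i : ∀ x ∈ G, 0 ≤ x ∧ x ≤ 1
  up : ∀ d s x0 : ℝ, δ ≤ d → d ≤ s → s ≤ 1 → (cov d (lc G x0 s) : ℝ) ≤ D * Real.sqrt (s / d)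
  lo : ∀ d : ℝ, δ ≤ d → d ≤ 1 → 1 / D * Real.sqrt (1 / d) ≤ cov d G

/-- `m` is a multiplier -/
def MU (G : Finset ℝ) (δ K m : ℝ) : Prop := 1 / 8 ≤ m ∧ m ≤ 8 ∧ (cov δ (G - dil m G) : ℝ) ≤ K * cov δ G

/-- **Row RMS** (sums of multipliers; MEDIUM, key; from RCV, RPL, RML, RLO). `U = G ∪ ⋃ m_i G ∪ ⋃ m_i m_j G` (43 sets): `cov δ (G - U) ≤ C K² cov δ G` (RML, `un`). For `g, g' ∈ G`, `x' = x/2`: `2 (m5-m6)(g + (m1 + x' m2) g') = 2 m5 g - 2 m6 g + 2 m5 m1 g' - 2 m6 m1 g' + m3 m2 g' - m4 m2 g'` is in `D = isum 6 U - isum 6 U` (add `g - g = 0`-like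
terms to reach `6`, or use `isum 5`; for `x' = (x+1)/2` add `(m5-m6) m2 g'`), and it is at most `R = 64 r` in absolute value. `cov δ (G + D) ≤ C (K²)^13 cov δ G` (RPL with `a = 7`, `b = 6`, `G + isum 6 U - isum 6 U ⊆ isum 7 U - isum 6 U`). RLO with `E = G`, `D`, `x0 = 0`, `R`: `cov δ (lc D 0 R) cov R G ≤ C cov δ (G + D)`; `cov δ G ≤ D √(1/δ)`
(`up` with `s = 1`, `x0 = 0`); `cov R G ≥ (1/D) √(1/R)` if `R ≤ 1`, else `≥ 1`. So `cov δ (2(m5-m6)(G + (m1+x'm2)G)) ≤ C K^26 D² √(r/δ)`, and `cov (δ/(2r)) E = cov δ (2r E)` (`dl`; sign: `ng`), `co`. Second claim: `(m5-m6)(g + (g' + x g'')) = m5 g - m6 g + m5 g' - m6 g' + m3 g'' - m4 g''` in the same way. -/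
def RMS_stmt : Prop := ∃ C : ℝ, 1 ≤ C ∧ ∀ (G : Finset ℝ) (δ D K m1 m2 m3 m4 m5 m6 r x x' : ℝ), 0 < δ → δ ≤ 1 → 1 ≤ D → 1 ≤ K → GC G δ D →
  MU G δ K m1 → MU G δ K m2 → MU G δ K m3 → MU G δ K m4 → MU G δ K m5 → MU G δ K m6 → r = |m5 - m6| → δ ≤ r → |m3 - m4| ≤ r → x = (m3 - m4) / (m5 - m6) → 0 ≤ x → (x' = x / 2 ∨ x' = (x + 1) / 2) →
    (cov (δ / r) (G + dil (m1 + x' * m2) G) : ℝ) ≤ C * K ^ 26 * D ^ 2 * Real.sqrt (r / δ) ∧ (cov (δ / r) (G + (G + dil x G)) : ℝ) ≤ C * K ^ 26 * D ^ 2 * Real.sqrt (r / δ)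

/-- **Row RKL** (energy count; MEDIUM, key; from RCV). `G'` = a `d`-separated subset of `G` with `2 |G'| ≥ cov d G` (`sp`), so `|G'|² ≥ 1/(4 D² d)`. For `m ∈ M`: the map `(g1, g2) ↦ ⌊(g1 + m g2)/d⌋` has at most `T` values, so by Cauchy-Schwarz at least `|G'|⁴/T` quadruples `(g1,g2,g3,g4)` with `|g1 + m g2 - g3 - m g4| ≤ d`. Count all quadruples and `m`:
if `g2 = g4` then `|g1 - g3| ≤ d`: at most `3 |G'|²` quadruples for each `m`. If `s = |g2 - g4| ≥ d`: `|m - (g3 - g1)/(g2 - g4)| ≤ d/s`: at most `2/s + 2 ≤ 4/s` values of `m` (`M` is `d`-separated, `s ≤ 1`), and `|g1 - g3| ≤ 33 s`: at most `C |G'| D √(s/d)` pairs `(g1, g3)` (`up`, and a `d`-separated set in an interval has at most `cov d` points, `cc`; cover the interval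
of length `66 s` by intervals with `s ≤ 1`). Pairs `(g2, g4)` with `2^(-j-1) < |g2 - g4| ≤ 2^(-j)`: at most `C |G'| D √(2^(-j)/d)`. Each `j` contributes `≤ C |G'|² D²/d`, and there are at most `2 + 2 log (1/d)` values of `j`. So `|M| |G'|⁴/T ≤ C |G'|² (|M| + (D²/d)(1 + log (1/d)))`; the hypothesis `C D² T ≤ 1/d` absorbs the first term. -/
def RKL_stmt : Prop := ∃ C : ℝ, 1 ≤ C ∧ ∀ (G M : Finset ℝ) (δ D d T : ℝ), 0 < δ → δ ≤ d → d ≤ 1 → 1 ≤ D → GC G δ D → (∀ m ∈ M, |m| ≤ 32) → (∀ m ∈ M, ∀ m' ∈ M, m ≠ m' → d ≤ |m - m'|) → 0 < T → (∀ m ∈ M, (cov d (G + dil m G) : ℝ) ≤ T) →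
  C * D ^ 2 * T ≤ 1 / d → (M.card : ℝ) ≤ C * D ^ 4 * T * (1 + Real.log (1 / d))

/-- **Row RCG** (coarse graining; short-medium; from RCV, RLO). `cov d G ≤ Σ` over the cells `I` of length `ρ` of `cov d (G ∩ I)`, at most `2 D √(1/ρ)` cells are occupied (`up` with `s = 1`, `x0 = 0`; `d := ρ`): some cell has `cov d (lc G x0 ρ) ≥ (1/D) √(1/d)/(D √(1/ρ))` (`x0` = its left end). RLO with `E = G + x G`, `D = G`, `R = ρ`. -/
def RCG_stmt : Prop := ∃ C : ℝ, 1 ≤ C ∧ ∀ (G : Finset ℝ) (δ D d ρ x T : ℝ), 0 < δ → δ ≤ d → d ≤ ρ → ρ ≤ 1 → 1 ≤ D → GC G δ D → (cov d (G + (G + dil x G)) : ℝ) ≤ T → (cov ρ (G + dil x G) : ℝ) ≤ C * D ^ 2 * T * Real.sqrt (d / ρ)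

/-- **Row RDN** (density; SHORT; pure). Let `S = sup` over `t ∈ [0,1]` of the distance from `t` to `Q` (`≤ 1`). For `t ≤ 1/2` take `x ∈ Q` near `2t`: `x/2` is near `t`, `y ∈ Q` within `ρ` of `x/2`: the distance is `≤ S/2 + ρ`. For `t ≥ 1/2` take `x` near `2t - 1`. So `S ≤ S/2 + ρ`. (Or: by induction on `n`, every `t` has a point of `Q` at distance `≤ 2^(-n) + 2ρ`.) -/
def RDN_stmt : Prop := ∀ (Q : Set ℝ) (ρ : ℝ), 0 < ρ → Q ⊆ Set.Icc 0 1 → (0 : ℝ) ∈ Q → (∀ x ∈ Q, (∃ y ∈ Q, |y - x / 2| ≤ ρ) ∧ ∃ y ∈ Q, |y - (x + 1) / 2| ≤ ρ) → ∀ t ∈ Set.Icc (0 : ℝ) 1, ∃ x ∈ Q, |x - t| ≤ 3 * ρ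

/-- the quotients of `M` with denominators `≥ r1`, in `[0,1]` -/
def QQ (M : Finset ℝ) (r1 : ℝ) : Set ℝ := {x | 0 ≤ x ∧ x ≤ 1 ∧ ∃ m3 ∈ M, ∃ m4 ∈ M, ∃ m5 ∈ M, ∃ m6 ∈ M, r1 ≤ |m5 - m6| ∧ x = (m3 - m4) / (m5 - m6)}

/-- **Row RNA** (case A; MEDIUM; from RCV, RMS, RKL). `m5, m6, m3, m4` of `x`, `r = |m5 - m6| ∈ [r1, 8]`, `|m3 - m4| = x r ≤ r`, `δ' = δ/min(r,1)`, so `δ ≤ δ' ≤ δ/r1` (if `r > 1` use `cov δ ≤ 2 cov (δ/r)`, `co`). `M1 ⊆ M` `δ'`-separated with `2|M1| ≥ cov δ' M`, `M2 ⊆ M` `r1`-separated with `2|M2| ≥ cov r1 M` (`sp`). `(m1, m2) ↦ m1 + x' m2` on `M1 × M2`: if two different pairs have images at distance `< δ'`: `m2 ≠ m4'` (else the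
`m1` differ by `< δ'`), `|x' - (m1' - m1)/(m2 - m2')| < δ'/r1 ≤ δ/r1² ≤ ρ`; but `|x' - y| > ρ` for `y = (m1' - m1)/(m2 - m2')`: if `y ∈ [0,1]` it is in `QQ`; if `y < 0` then `x' > ρ` (`0 ∈ QQ`) and if `y > 1` then `x' < 1 - ρ` (`1 ∈ QQ`: take `m3 = m5`, `m4 = m6`). So `M'' = {m1 + x' m2}` is `δ'`-separated with `|M1||M2|` elements, `|m| ≤ 16`, and RMS
gives `T = C K^26 D² √(1/δ')` for all of them (`√(r/δ) ≤ 3 √(1/δ')`). RKL with `d = δ'`: `|M1||M2| ≤ C D⁴ T (1 + log (1/δ'))` if `C D² T ≤ 1/δ'`. -/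
def RNA_stmt : Prop := ∃ C : ℝ, 1 ≤ C ∧ ∀ (G M : Finset ℝ) (δ D K r1 ρ : ℝ) (x x' : ℝ), 0 < δ → δ ≤ 1 → 1 ≤ D → 1 ≤ K → GC G δ D → (∀ m ∈ M, MU G δ K m) → 0 < r1 → r1 ≤ 1 → 0 < ρ → ρ ≤ 1 → δ ≤ ρ * r1 ^ 2 → δ ≤ r1 →
  x ∈ QQ M r1 → (x' = x / 2 ∨ x' = (x + 1) / 2) → (∀ y ∈ QQ M r1, ρ < |x' - y|) → C * K ^ 26 * D ^ 4 * Real.sqrt (1 / r1) * Real.sqrt δ ≤ 1 →
    ∃ δ' : ℝ, δ ≤ δ' ∧ δ' ≤ δ / r1 ∧ (cov δ' M : ℝ) * cov r1 M ≤ C * K ^ 26 * D ^ 6 * Real.sqrt (1 / δ') * (1 + Real.log (1 / δ))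

/-- **Row RNB** (case B; short-medium; from RMS, RCG, RDN, RKL). RDN for `Q = QQ M r1` (`0 ∈ Q`: `m3 = m4`; `M` has two points at distance `≥ r1`: hypothesis). For `t = 8 ρ j`, `0 ≤ j ≤ 1/(8ρ)`: `x_j ∈ Q` with `|x_j - t| ≤ 3ρ`: the `x_j` are `2ρ`-separated, at least `1/(8ρ)` of them. RMS (second claim) with `T' = C K^26 D² √(1/d)` at the scale `d = δ/min(r,1)`, `δ ≤ d ≤ δ/r1 ≤ ρ` (if `r > 1`: `co`), RCG: `cov ρ (G + x_j G) ≤ C D² T' √(d/ρ)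
= C K^26 D⁴ √(1/ρ) =: T`. RKL with `d = ρ`, `M = {x_j}`: `1/(8ρ) ≤ C D⁴ T (1 + log (1/ρ))` if `C D² T ≤ 1/ρ`. -/
def RNB_stmt : Prop := ∃ C : ℝ, 1 ≤ C ∧ ∀ (G M : Finset ℝ) (δ D K r1 ρ : ℝ), 0 < δ → δ ≤ 1 → 1 ≤ D → 1 ≤ K → GC G δ D → (∀ m ∈ M, MU G δ K m) → 0 < r1 → r1 ≤ 1 → 0 < ρ → ρ ≤ 1 / 8 → δ ≤ ρ * r1 → δ ≤ r1 → (∃ m5 ∈ M, ∃ m6 ∈ M, r1 ≤ |m5 - m6|) →
  (∀ x ∈ QQ M r1, (∃ y ∈ QQ M r1, |y - x / 2| ≤ ρ) ∧ ∃ y ∈ QQ M r1, |y - (x + 1) / 2| ≤ ρ) → C * K ^ 26 * D ^ 6 * Real.sqrt ρ ≤ 1 → 1 ≤ C * K ^ 26 * D ^ 8 * Real.sqrt ρ * (1 + Real.log (1 / ρ))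

/-- **Row RNG** (THE RING THEOREM; MEDIUM; from RCV, RNA, RNB). Assume `N^(1/2-u) < cov δ M`, `u = 1/1000`, `δ = 1/N`. `D = 4 N^(2u)`: `GC.lo`: the cells of length `δ` in one cell of length `d` are at most `N^u √(d N)` (`lc` with the middle of the cell, `s = d`), so `cov d G ≥ N^(1/2-u)/(N^u √(d N)) = N^(-2u) √(1/d)`; the same for `M`: `cov d M ≥ N^(-2u) √(1/d)` for `δ ≤ d ≤ 1`.
`K = N^u`, `r1 = ρ = N^(-1/5)`: `δ ≤ ρ r1²`; conditions of RNA: `C N^(26u + 8u + 1/10 - 1/2) ≤ 1`; conclusion of RNA: `N^(-4u) √(1/δ') N^(1/10) ≤ C N^(26u+12u) √(1/δ') (1 + log N)`: false for large `N` (`42 u < 1/10`). RNB: `C N^(26u+12u-1/10) ≤ 1` and the conclusion `1 ≤ C N^(26u+16u-1/10)(1 + log N)` is false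
for large `N`. `M` has two points at distance `≥ r1`: else `cov r1 M ≤ 3`. -/
def RNG_stmt : Prop := ∃ N0 : ℝ, 1 ≤ N0 ∧ ∀ (N : ℝ) (G M : Finset ℝ), N0 ≤ N → (∀ x ∈ G, 0 ≤ x ∧ x ≤ 1) → (∀ d s x0 : ℝ, 1 / N ≤ d → d ≤ s → s ≤ 1 → (cov d (lc G x0 s) : ℝ) ≤ N ^ (1 / 1000 : ℝ) * Real.sqrt (s / d)) →
  N ^ (1 / 2 - 1 / 1000 : ℝ) ≤ cov (1 / N) G → (∀ m ∈ M, 1 / 8 ≤ m ∧ m ≤ 8) → (∀ s x0 : ℝ, 1 / N ≤ s → s ≤ 1 → (cov (1 / N) (lc M x0 s) : ℝ) ≤ N ^ (1 / 1000 : ℝ) * Real.sqrt (s * N)) →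
  (∀ m ∈ M, (cov (1 / N) (G - dil m G) : ℝ) ≤ N ^ (1 / 1000 : ℝ) * cov (1 / N) G) → (cov (1 / N) M : ℝ) ≤ N ^ (1 / 2 - 1 / 1000 : ℝ)

end

end Pool.Agent.HH
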