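import Pool.Agent.helper52.IR.Spec
import Pool.Agent.helper17.HH.SpecR

/-!
# MP_07c750, project HH: the interface between the pure part (blocks R, B, A) and the dynamics (block D)

`p = 4000 m` (grid of 4000 windows of length `m`), `L` between `e^p` and `C e^p`, `η = 2 · 10^(-7)`, so all counts have the exponent `1/2 + η`. `HAL_stmt` = the analogue of `IR.ALM_stmt`: outside of `e^((1/2 - 1/4000) p)` bad cells of `w` (among the admissible ones) the sum of the row `IR.BLK` is `≤ e^(-p/10^6)` for every `Y` with the grid bounds.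
-/

open MeasureTheory Set

set_option autoImplicit false

namespace Pool.Agent.HH

noncomputable section

/-- the excess exponent -/
def eta : ℝ := 1 / 5000000

/-- the admissible cells of `w` (of length `1/L`): at most `C e^((1/2+η)(p - i m))` in every interval of length `e^(-i m)` -/
def GW (C : ℝ) (m L : ℕ) (W : Finset ℤ) : Prop := ∀ i : ℕ, i ≤ 4000 → ∀ k0 : ℤ,
  ((W.filter fun k : ℤ => |(k : ℝ) - k0| ≤ L * Real.exp (-(i * m))).card : ℝ) ≤ C * Real.exp ((1 / 2 + eta) * ((4000 - i) * m))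

/-- the leaf set: `3 p` words in all (`v0`), `2 p` words in an interval of length `e^(-p)` (`v1`), and for the windows `[i m, j m]`, `j m ≤ p`: at most `C e^((1/2+η)(j-i) m)` cells of length `e^(-j m)` in an interval of length `e^(-i m)` (`cl`) -/
structure GY (C : ℝ) (m : ℕ) (Y : Set ℝ) : Prop where
  ms : MeasurableSet Y
  sb : Y ⊆ Icc 0 1
  v0 : volume.real Y ≤ C * Real.exp ((1 / 2 + eta) * (3 * (4000 * m)) - 3 * (4000 * m))
  v1 : ∀ v : ℝ, volume.real (Y ∩ Icc (v - 4 * Real.exp (-(4000 * m))) (v + 4 * Real.exp (-(4000 * m)))) ≤ C * Real.exp ((1 / 2 + eta) * (2 * (4000 * m)) - 3 * (4000 * m))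
  cl : ∀ i j : ℕ, i < j → j ≤ 4000 → ∀ (v : ℝ) (K : Finset ℤ), (∀ k ∈ K, ∃ x ∈ Y, |x - v| ≤ Real.exp (-(i * m)) ∧ ⌊x * Real.exp (j * m)⌋ = k) → (K.card : ℝ) ≤ C * Real.exp ((1 / 2 + eta) * ((j - i) * m))

/-- **THE PURE STATEMENT** used by block D (proved by blocks R, B, A) -/
def HAL_stmt : Prop := ∀ C : ℝ, 1 ≤ C → ∃ m0 : ℕ, ∀ (m L : ℕ) (S : Finset ℤ) (P : ℤ → Finset ℤ) (X : ℤ → ℝ) (W : Finset ℤ), m0 ≤ m → Real.exp (4000 * m) ≤ L → (L : ℝ) ≤ C * Real.exp (4000 * m) →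
  IR.STR S P X (C * Real.exp ((1 / 2 + eta) * (2 * (4000 * m)))) (C * Real.exp ((1 / 2 + eta) * (7999 * m))) (C * Real.exp ((1 / 2 + eta) * (4000 * m))) (Real.exp (-m)) → (∀ i ∈ S, ∀ q ∈ P i, |(q : ℝ)| ≤ C * L) →
  (∀ k ∈ W, 16 * (|k| + 1) ≤ (L : ℤ)) → GW C m L W →
    ∃ Q ⊆ W, (Q.card : ℝ) ≤ Real.exp ((1 / 2 - 1 / 4000) * (4000 * m)) ∧ ∀ k ∈ W, k ∉ Q → ∀ (w κ : ℝ) (Y : Set ℝ), (k : ℝ) / L ≤ w → w ≤ (k + 1) / L → 1 / 2 ≤ κ → κ ≤ 2 → GY C m Y →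
      ∑ I ∈ S, Real.sqrt (∫ v in Y, ∫ v' in Y, ‖IR.ps (P I) (κ * IR.om w (X I) * (v - v'))‖ ^ 2) ≤ Real.exp (-(4000 * m) / 1000000)

end

end Pool.Agent.HH
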