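import Pool.Agent.helper17.HH.SpecF

/-!
# MP_07c750, project HH, row YCW: covering number of the leaf set in one window
-/

open scoped MatrixGroups ContDiff Topology UpperHalfPlane ComplexConjugate
open UpperHalfPlane MeasureTheory Filter Set

set_option autoImplicit false

namespace Pool.Agent.HH

open Pool.Agent.RS
open Pool.Agent.HV (FW)

noncomputable section

theorem YCW_proof (hCTF : IR.CTF_stmt) (hGLC : RS.GLC_stmt) : YCW_stmt := by
  classical
  intro Γ hΓ
  obtain ⟨C, hC, H⟩ := hCTF Γ hΓ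
  obtain ⟨-, -, -, -, -, -, -, -, -, -, -, -, hlM, -, -, -, -, -, hla, -⟩ := hGLC
  refine ⟨2 * C, by positivity, fun b k σ v A g K hb hb1 hk hK => ?_⟩
  obtain ⟨g', hg'⟩ : ∃ g' : SL(2, ℝ), g' = g * lM v * aM σ := ⟨_, rfl⟩
  have key : ∀ x : ℝ, g * lM x * aM σ = g' * lM (Real.exp σ * (x - v)) := by
    intro x
    have h1 : lM x = lM v * lM (x - v) := by
      rw [← hlM]
      congr 1
      ring
    rw [h1, hg', ← mul_assoc, mul_assoc (g * lM v), hla, mul_assoc, mul_assoc, mul_assoc]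
  choose! x hx1 hx2 hx3 using hK
  obtain ⟨f, hf⟩ : ∃ f : ℤ → ℤ, f = fun c => ⌊Real.exp σ * (x c - v) * Real.exp k⌋ := ⟨_, rfl⟩
  have hσσ : Real.exp σ * Real.exp (-σ) = 1 := by rw [← Real.exp_add, add_neg_cancel, Real.exp_zero]
  have hT := H b k A g' (K.image f) hb hb1 hk (by
    intro t ht
    obtain ⟨c, hc, rfl⟩ := Finset.mem_image.1 ht
    refine ⟨Real.exp σ * (x c - v), ?_, ?_, ?_, ?_⟩
    · rw [abs_mul, abs_of_pos (Real.exp_pos σ)]
      calc Real.exp σ * |x c - v| ≤ Real.exp σ * Real.exp (-σ) := mul_le_mul_of_nonneg_left (hx1 c hc) (Real.exp_pos σ).le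
        _ = 1 := hσσ
        _ ≤ 4 := by norm_num
    · rw [hf]
      exact Int.floor_le _
    · rw [hf]
      exact Int.lt_floor_add_one _
    · rw [← key]
      exact hx2 c hc)
  have hsub : K ⊆ (K.image f).image (fun t : ℤ => ⌊v * Real.exp (σ + k) + t⌋) ∪ (K.image f).image (fun t : ℤ => ⌊v * Real.exp (σ + k) + t⌋ + 1) := by
    intro c hc
    have h1 : f c ∈ K.image f := Finset.mem_image_of_mem f hc
    have h2 : ((f c : ℤ) : ℝ) ≤ Real.exp σ * (x c - v) * Real.exp k := by rw [hf]; exact Int.floor_le _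
    have h3 : Real.exp σ * (x c - v) * Real.exp k < (f c : ℤ) + 1 := by rw [hf]; exact Int.lt_floor_add_one _
    have h4 : x c * Real.exp (σ + k) = v * Real.exp (σ + k) + Real.exp σ * (x c - v) * Real.exp k := by
      rw [Real.exp_add]
      ring
    have h5 := hx3 c hc
    rw [h4] at h5
    have h6 : ⌊v * Real.exp (σ + k) + (f c : ℤ)⌋ ≤ c :=
      (Int.floor_le_floor (by linarith)).trans h5.le
    have h7 : c ≤ ⌊v * Real.exp (σ + k) + (f c : ℤ)⌋ + 1 := by
      have h8 : ⌊v * Real.exp (σ + k) + (f c : ℤ)⌋ + 1 = ⌊v * Real.exp (σ + k) + (f c : ℤ) + 1⌋ := (Int.floor_add_one _).symm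
      rw [h8]
      exact h5.ge.trans (Int.floor_le_floor (by linarith))
    rw [Finset.mem_union, Finset.mem_image, Finset.mem_image]
    rcases h6.eq_or_lt with h | h
    · exact Or.inl ⟨f c, h1, h⟩
    · exact Or.inr ⟨f c, h1, by omega⟩
  have h1 : (K.card : ℝ) ≤ 2 * (K.image f).card := by
    have h2 := (Finset.card_le_card hsub).trans (Finset.card_union_le _ _)
    have h3 : ((K.image f).image (fun t : ℤ => ⌊v * Real.exp (σ + k) + t⌋)).card ≤ (K.image f).card := Finset.card_image_le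
    have h4 : ((K.image f).image (fun t : ℤ => ⌊v * Real.exp (σ + k) + t⌋ + 1)).card ≤ (K.image f).card := Finset.card_image_le
    have h5 : K.card ≤ 2 * (K.image f).card := by omega
    exact_mod_cast h5
  calc (K.card : ℝ) ≤ 2 * (K.image f).card := h1
    _ ≤ 2 * (C * A.card) := by gcongr
    _ = 2 * C * A.card := by ring

end

end Pool.Agent.HH
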